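import Pool.Agent.Q90.WR.Daf

/-!
# Dade's alternating sums at odd primes: parities decide

Let `p` be odd and `D_d(G) = ∑_σ (-1)^|σ| k^d(G_σ)`, the alternating sum of the numbers of
irreducible characters of `p`-defect `d` of the stabilisers of the chains of nontrivial
`p`-subgroups.

Proof. (1) A functional `φ ↦ ∑_σ (-1)^|σ| φ(G_σ)` on the functions of the subgroups is determined by
its values on the functions `H ↦ [K ≤ H]`, and these are Euler characteristics of fixed point sets of
the poset of `p`-subgroups. For the wreath product `Wr G` of `G` with a group of order two they are
products (`K` in the base) or the value for the projection of `K` (`K` not in the base). This gives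
a formula for the functional of `Wr G` by pairs of chains of `G`, the pairs of conjugate chains
of odd length entering with the virtual stabiliser `2 (G_σ × G_σ) - Wr (G_σ)`.
(2) With the characters of `H × K` and of `Wr H` this yields
`2 D_d(Wr G) = ∑_{i+j=d} D_i(G) D_j(G) + 3 D_{d/2}(G)`.
(3) So if all `D_d`, `d > 0`, are divisible by `2^(a+1)` for `G` and for `Wr G`, then they are
divisible by `2^(a+2)` for `G`. Modulo 2 only real characters count.
-/

set_option autoImplicit false

namespace Pool.Agent.Results.MP_3f89b9_al.ParityDecides

open Pool.Agent.Q90.WR

/-- Let `p` be an odd prime. `dadeSum p d G` is the alternating sum of the numbers of irreducible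
characters of `p`-defect `d` of the stabilisers `G_σ`, `σ` running over representatives of the
classes of chains of nontrivial `p`-subgroups of `G` (the empty chain included), and
`realDadeSum p d G` is the sum of the numbers of real-valued irreducible characters of `p`-defect `d`
of the same groups `G_σ`.
(1) For a finite group `G`, all `dadeSum p d G`, `d > 0`, vanish if and only if all
`realDadeSum p d H`, `d > 0`, are even for all iterated wreath products
`H = (⋯(G ≀ C₂) ≀ ⋯) ≀ C₂` (`G` itself included).
(2) The first numbers vanish for all finite groups without nontrivial normal `p`-subgroups and all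
`d > 0` if and only if the second numbers are even for all these groups and all `d > 0`. -/
theorem result (p : ℕ) [Fact p.Prime] (hp2 : p ≠ 2) :
    (∀ (G : Type) [Group G] [Finite G], (∀ d, 0 < d → dadeSum p d G = 0) ↔
      ∀ j d : ℕ, 0 < d → Even (realDadeSum p d (WrN j G))) ∧
    ((∀ (G : Type) [Group G] [Finite G],
        (∀ P : Subgroup G, P.Normal → IsPGroup p P → P = ⊥) →
        ∀ d, 0 < d → dadeSum p d G = 0) ↔
      ∀ (G : Type) [Group G] [Finite G],
        (∀ P : Subgroup G, P.Normal → IsPGroup p P → P = ⊥) →
        ∀ d, 0 < d → Even (realDadeSum p d G)) :=
  ⟨fun G _ _ => dade_one hp2 G, dade_all hp2⟩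

end Pool.Agent.Results.MP_3f89b9_al.ParityDecides
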